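import Pool.Agent.Results.MP_ba72f5_co.TwoThirdsLowerBound

/-!
# MP_ba72f5_co: two perfect matchings do not suffice for 4-graphs

We construct a `4`-graph `G` on 58 vertices such that `G - (M₁ ∪ M₂)` is not bipartite for all
perfect matchings `M₁`, `M₂` of `G`. So `t(4) ≥ 3`.
-/

set_option autoImplicit false

namespace Pool.Agent.Results.MP_ba72f5_co.FourGraphs

open Pool.Agent.Results.MP_ba72f5_co.TwoThirdsLowerBound (MGraph Suffices tNum)

/-- vertices: six gadgets of nine vertices and four further vertices -/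
abbrev GV : Type := (Fin 6 × Fin 9) ⊕ Fin 4

/-- edges: sixteen in each gadget and twenty further edges -/
abbrev GE : Type := (Fin 6 × Fin 16) ⊕ Fin 20

/-- ends of the edges of a gadget -/
def lA : Fin 16 → Fin 9 := ![0, 1, 2, 4, 5, 6, 7, 8, 0, 0, 1, 1, 2, 2, 3, 3]
/-- ends of the edges of a gadget -/
def lB : Fin 16 → Fin 9 := ![1, 2, 3, 6, 7, 8, 4, 5, 5, 5, 6, 6, 7, 7, 8, 8]

/-- ends of the further edges -/
def oA : Fin 20 → GV :=
  ![.inl (0, 0), .inl (0, 3), .inl (1, 0), .inl (1, 3), .inl (2, 0), .inl (2, 3),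
    .inl (3, 0), .inl (3, 3), .inl (4, 0), .inl (4, 3), .inl (5, 0), .inl (5, 3),
    .inl (0, 4), .inl (1, 4), .inl (2, 4), .inl (3, 4), .inl (3, 4), .inl (4, 4),
    .inl (5, 4), .inl (5, 4)]
/-- ends of the further edges -/
def oB : Fin 20 → GV :=
  ![.inr 0, .inr 0, .inr 1, .inr 1, .inr 2, .inr 2, .inr 0, .inr 0, .inr 1, .inr 1, .inr 2,
    .inr 2, .inl (1, 4), .inl (2, 4), .inl (0, 4), .inl (4, 4), .inr 3, .inr 3, .inr 3, .inr 3]

/-- first end -/
def eA : GE → GV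
  | .inl (g, e) => .inl (g, lA e)
  | .inr o => oA o
/-- second end -/
def eB : GE → GV
  | .inl (g, e) => .inl (g, lB e)
  | .inr o => oB o

/-- first edge from the first vertex of a gadget to its hub -/
def aE : Fin 6 → Fin 20 := ![0, 2, 4, 6, 8, 10]
/-- the edge from the fourth vertex of a gadget to its hub -/
def cE : Fin 6 → Fin 20 := ![1, 3, 5, 7, 9, 11]
/-- first outer edge at the fifth vertex of a gadget -/
def mE : Fin 6 → Fin 20 := ![12, 12, 13, 15, 15, 18]
/-- second outer edge at the fifth vertex of a gadget -/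
def nE : Fin 6 → Fin 20 := ![14, 13, 14, 16, 17, 19]

/-- the four edges at a vertex of a gadget -/
def incG (g : Fin 6) (u : Fin 9) : Fin 4 → GE :=
  match u with
  | 0 => ![.inl (g, 0), .inl (g, 8), .inl (g, 9), .inr (aE g)]
  | 1 => ![.inl (g, 0), .inl (g, 1), .inl (g, 10), .inl (g, 11)]
  | 2 => ![.inl (g, 1), .inl (g, 2), .inl (g, 12), .inl (g, 13)]
  | 3 => ![.inl (g, 2), .inl (g, 14), .inl (g, 15), .inr (cE g)]
  | 4 => ![.inl (g, 3), .inl (g, 6), .inr (mE g), .inr (nE g)]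
  | 5 => ![.inl (g, 4), .inl (g, 7), .inl (g, 8), .inl (g, 9)]
  | 6 => ![.inl (g, 3), .inl (g, 5), .inl (g, 10), .inl (g, 11)]
  | 7 => ![.inl (g, 4), .inl (g, 6), .inl (g, 12), .inl (g, 13)]
  | 8 => ![.inl (g, 5), .inl (g, 7), .inl (g, 14), .inl (g, 15)]

/-- the four edges at a further vertex -/
def incO (i : Fin 4) : Fin 4 → GE :=
  match i with
  | 0 => ![.inr 0, .inr 1, .inr 6, .inr 7]
  | 1 => ![.inr 2, .inr 3, .inr 8, .inr 9]
  | 2 => ![.inr 4, .inr 5, .inr 10, .inr 11]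
  | 3 => ![.inr 16, .inr 17, .inr 18, .inr 19]

/-- the four edges at a vertex -/
def inc : GV → Fin 4 → GE
  | .inl (g, u) => incG g u
  | .inr i => incO i

theorem lAB : ∀ e, lA e ≠ lB e := by decide
theorem oAB : ∀ e, oA e ≠ oB e := by decide

theorem eAB (e : GE) : eA e ≠ eB e := by
  rcases e with ⟨g, e⟩ | o
  · intro h
    have h1 : (g, lA e) = (g, lB e) := Sum.inl.inj h
    exact lAB e (Prod.mk.inj h1).2
  · exact oAB o

/-- The graph. -/
def GG : MGraph GV GE where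
  ends e := s(eA e, eB e)
  loopless e := by simpa using eAB e

theorem chk1 : ∀ g : Fin 6, ∀ e : Fin 16, (∃ j, incG g (lA e) j = .inl (g, e)) ∧
    (∃ j, incG g (lB e) j = .inl (g, e)) := by decide
theorem chk2 : ∀ o : Fin 20, (∃ j, inc (oA o) j = .inr o) ∧ (∃ j, inc (oB o) j = .inr o) := by
  decide
theorem chk3 : ∀ g : Fin 6, ∀ u : Fin 9, ∀ j, eA (incG g u j) = .inl (g, u) ∨
    eB (incG g u j) = .inl (g, u) := by decide
theorem chk4 : ∀ i : Fin 4, ∀ j, eA (incO i j) = .inr i ∨ eB (incO i j) = .inr i := by decide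
theorem chk5 : ∀ g : Fin 6, ∀ u : Fin 9, ∀ j j', incG g u j = incG g u j' → j = j' := by decide
theorem chk6 : ∀ i : Fin 4, ∀ j j', incO i j = incO i j' → j = j' := by decide

theorem mem_ends (v : GV) (e : GE) : v ∈ GG.ends e ↔ v = eA e ∨ v = eB e := by simp [GG]

theorem mem_iff (v : GV) (e : GE) : v ∈ GG.ends e ↔ ∃ j, inc v j = e := by
  rw [mem_ends]
  constructor
  · rintro (rfl | rfl)
    · rcases e with ⟨g, e⟩ | o
      · exact (chk1 g e).1
      · exact (chk2 o).1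
    · rcases e with ⟨g, e⟩ | o
      · exact (chk1 g e).2
      · exact (chk2 o).2
  · rintro ⟨j, rfl⟩
    rcases v with ⟨g, u⟩ | i
    · rcases chk3 g u j with h | h
      · exact Or.inl h.symm
      · exact Or.inr h.symm
    · rcases chk4 i j with h | h
      · exact Or.inl h.symm
      · exact Or.inr h.symm

theorem inc_inj (v : GV) : Function.Injective (inc v) := by
  rcases v with ⟨g, u⟩ | i
  · exact fun j j' h => chk5 g u j j' h
  · exact fun j j' h => chk6 i j j' h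

/-! ## The graph is a 4-graph -/

/-- first matching of the certificate through a gadget edge -/
def K1 : Fin 6 → Fin 16 → Fin 8 :=
  ![![4, 2, 3, 2, 2, 5, 3, 3, 0, 5, 0, 3, 0, 4, 0, 2],
    ![5, 2, 3, 2, 2, 5, 3, 3, 0, 4, 0, 3, 0, 4, 0, 2],
    ![2, 0, 1, 0, 0, 3, 1, 1, 3, 5, 1, 5, 2, 5, 0, 5],
    ![5, 0, 1, 0, 0, 5, 1, 1, 2, 4, 1, 3, 2, 4, 0, 3],
    ![4, 0, 1, 0, 0, 5, 1, 1, 2, 5, 1, 3, 2, 4, 0, 3],
    ![3, 4, 3, 4, 3, 3, 5, 5, 0, 2, 0, 2, 0, 2, 0, 2]]
/-- second matching of the certificate through a gadget edge -/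
def K2 : Fin 6 → Fin 16 → Fin 8 :=
  ![![7, 5, 7, 4, 7, 7, 5, 4, 1, 6, 1, 6, 1, 6, 1, 6],
    ![6, 7, 5, 6, 5, 7, 7, 6, 1, 7, 1, 4, 1, 6, 1, 4],
    ![7, 3, 7, 2, 7, 7, 3, 2, 4, 6, 4, 6, 4, 6, 4, 6],
    ![6, 7, 5, 6, 5, 7, 7, 6, 3, 7, 2, 4, 3, 6, 2, 4],
    ![7, 5, 7, 4, 7, 7, 5, 4, 3, 6, 2, 6, 3, 6, 2, 6],
    ![6, 7, 5, 6, 4, 7, 7, 6, 1, 7, 1, 5, 1, 6, 1, 4]]
/-- first matching of the certificate through a further edge -/
def O1 : Fin 20 → Fin 8 := ![2, 4, 2, 6, 0, 2, 0, 6, 0, 4, 4, 6, 0, 4, 6, 2, 4, 6, 0, 1]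
/-- second matching of the certificate through a further edge -/
def O2 : Fin 20 → Fin 8 := ![3, 5, 3, 7, 1, 3, 1, 7, 1, 5, 5, 7, 1, 5, 7, 3, 5, 7, 2, 3]

/-- the certificate: eight perfect matchings, each edge is in two of them -/
def k1 : GE → Fin 8
  | .inl (g, e) => K1 g e
  | .inr o => O1 o
/-- the certificate: eight perfect matchings, each edge is in two of them -/
def k2 : GE → Fin 8
  | .inl (g, e) => K2 g e
  | .inr o => O2 o

theorem cert1 : ∀ g : Fin 6, ∀ u : Fin 9, ∀ k : Fin 8, ∃ j,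
    (k1 (incG g u j) = k ∨ k2 (incG g u j) = k) ∧
    ∀ j', (k1 (incG g u j') = k ∨ k2 (incG g u j') = k) → j' = j := by decide

theorem cert2 : ∀ i : Fin 4, ∀ k : Fin 8, ∃ j,
    (k1 (incO i j) = k ∨ k2 (incO i j) = k) ∧
    ∀ j', (k1 (incO i j') = k ∨ k2 (incO i j') = k) → j' = j := by decide

theorem cert (v : GV) (k : Fin 8) : ∃ j,
    (k1 (inc v j) = k ∨ k2 (inc v j) = k) ∧
    ∀ j', (k1 (inc v j') = k ∨ k2 (inc v j') = k) → j' = j := by
  rcases v with ⟨g, u⟩ | i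
  · exact cert1 g u k
  · exact cert2 i k

/-- the perfect matchings of the certificate -/
def NK (k : Fin 8) : Set GE := {e | k1 e = k ∨ k2 e = k}

theorem NK_pm (k : Fin 8) : GG.IsPerfectMatching (NK k) := by
  intro v
  obtain ⟨j, hj, hu⟩ := cert v k
  refine ⟨inc v j, ⟨hj, (mem_iff _ _).mpr ⟨j, rfl⟩⟩, ?_⟩
  rintro e ⟨he, hv⟩
  obtain ⟨j', rfl⟩ := (mem_iff _ _).mp hv
  rw [hu j' he]

theorem even_of_no_cross (N : Set GE) (hN : GG.IsPerfectMatching N) (X : Set GV)
    (h : ∀ e ∈ N, (eA e ∈ X ↔ eB e ∈ X)) : Even X.ncard := by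
  classical
  set P : Finset GE := Finset.univ.filter fun e => e ∈ N with hP
  set XF : Finset GV := Finset.univ.filter fun v => v ∈ X with hXF
  have hX : X.ncard = XF.card := by
    rw [← Set.ncard_coe_finset]
    congr 1
    ext v
    simp [hXF]
  have h1 : ∀ v : GV, ∑ e ∈ P, ((if v = eA e then 1 else 0) + (if v = eB e then 1 else 0)) = 1 := by
    intro v
    obtain ⟨e0, ⟨he0, hv0⟩, hu⟩ := hN v
    rw [Finset.sum_eq_single e0]
    · rw [mem_ends] at hv0
      rcases hv0 with h' | h'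
      · have h2 : v ≠ eB e0 := by rw [h']; exact eAB e0
        rw [if_pos h', if_neg h2]
      · have h2 : v ≠ eA e0 := by rw [h']; exact (eAB e0).symm
        rw [if_pos h', if_neg h2]
    · intro e he hne
      rw [hP, Finset.mem_filter] at he
      have h2 : ¬ (v = eA e ∨ v = eB e) := fun h3 => hne (hu e ⟨he.2, (mem_ends _ _).mpr h3⟩)
      rw [not_or] at h2
      simp [h2.1, h2.2]
    · intro h3
      exact absurd (by rw [hP, Finset.mem_filter]; exact ⟨Finset.mem_univ _, he0⟩) h3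
  have h2 : XF.card = ∑ e ∈ P, 2 * (if eA e ∈ X then 1 else 0) := by
    calc XF.card = ∑ v ∈ XF, 1 := by simp
      _ = ∑ v ∈ XF, ∑ e ∈ P, ((if v = eA e then 1 else 0) + (if v = eB e then 1 else 0)) :=
          Finset.sum_congr rfl fun v _ => (h1 v).symm
      _ = ∑ e ∈ P, ∑ v ∈ XF, ((if v = eA e then 1 else 0) + (if v = eB e then 1 else 0)) :=
          Finset.sum_comm
      _ = ∑ e ∈ P, 2 * (if eA e ∈ X then 1 else 0) := by
          apply Finset.sum_congr rfl
          intro e he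
          rw [hP, Finset.mem_filter] at he
          have h3 := h e he.2
          rw [Finset.sum_add_distrib, Finset.sum_ite_eq', Finset.sum_ite_eq']
          simp only [hXF, Finset.mem_filter, Finset.mem_univ, true_and]
          by_cases h4 : eA e ∈ X
          · rw [if_pos h4, if_pos (h3.mp h4)]
          · have h6 : eB e ∉ X := fun h5 => h4 (h3.mpr h5)
            simp [h4, h6]
  rw [hX, h2, ← Finset.mul_sum]
  exact even_two_mul _

theorem isRGraph : GG.IsRGraph 4 := by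
  classical
  constructor
  · intro v
    unfold MGraph.degree
    have h : {e : GE | v ∈ GG.ends e} = ((Finset.univ.image (inc v) : Finset GE) : Set GE) := by
      ext e
      simp only [Finset.coe_image, Finset.coe_univ, Set.image_univ, Set.mem_range]
      exact mem_iff v e
    rw [h, Set.ncard_coe_finset, Finset.card_image_of_injective _ (inc_inj v)]
    rfl
  · intro X hX
    set D : Finset GE := Finset.univ.filter fun e => ¬ (eA e ∈ X ↔ eB e ∈ X) with hD
    have hb : GG.boundary X = (D : Set GE) := by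
      ext e
      rw [hD]
      simp only [MGraph.boundary, GG, Set.mem_ofPred_eq, Finset.coe_filter, Finset.mem_univ,
        true_and]
      constructor
      · rintro ⟨u, v, h, hu, hv⟩
        rw [Sym2.eq_iff] at h
        rcases h with ⟨h1, h2⟩ | ⟨h1, h2⟩
        · rw [h1, h2]; tauto
        · rw [h1, h2]; tauto
      · intro h
        by_cases hA : eA e ∈ X
        · exact ⟨eA e, eB e, rfl, hA, fun hB => h ⟨fun _ => hB, fun _ => hA⟩⟩
        · refine ⟨eB e, eA e, Sym2.eq_swap, ?_, hA⟩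
          by_contra hB
          exact h ⟨fun h' => absurd h' hA, fun h' => absurd h' hB⟩
    rw [hb, Set.ncard_coe_finset]
    have hsub : (Finset.univ : Finset (Fin 8)) ⊆ D.biUnion fun e => {k1 e, k2 e} := by
      intro k _
      have h1 : ∃ e ∈ NK k, ¬ (eA e ∈ X ↔ eB e ∈ X) := by
        by_contra hne
        push Not at hne
        have := even_of_no_cross (NK k) (NK_pm k) X (fun e he => by
          have := hne e he
          tauto)
        exact (Nat.not_even_iff_odd.mpr hX) this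
      obtain ⟨e, he, hx⟩ := h1
      rw [Finset.mem_biUnion]
      refine ⟨e, ?_, ?_⟩
      · rw [hD, Finset.mem_filter]
        exact ⟨Finset.mem_univ _, hx⟩
      · rw [Finset.mem_insert, Finset.mem_singleton]
        rcases he with he | he
        · exact Or.inl he.symm
        · exact Or.inr he.symm
    have h2 := Finset.card_le_card hsub
    have h3 : (D.biUnion fun e => ({k1 e, k2 e} : Finset (Fin 8))).card ≤ D.card * 2 :=
      Finset.card_biUnion_le_card_mul _ _ _ fun e _ => Finset.card_le_two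
    rw [Finset.card_univ, Fintype.card_fin] at h2
    omega

/-! ## Two perfect matchings do not suffice -/

theorem five (a b c d e : Bool) : a ≠ b → b ≠ c → c ≠ d → d ≠ e → e ≠ a → False := by
  cases a <;> cases b <;> cases c <;> cases d <;> cases e <;> simp

/-- The gadget: if two perfect matchings both leave the gadget only at its fifth vertex, then there
is a monochromatic edge of the gadget which is in none of them. -/
theorem gadget (p q : Fin 16 → ℕ) (x : Fin 9 → Bool)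
    (p0 : p 0 + p 8 + p 9 = 1) (p1 : p 0 + p 1 + p 10 + p 11 = 1)
    (p2 : p 1 + p 2 + p 12 + p 13 = 1) (p3 : p 2 + p 14 + p 15 = 1) (p4 : p 3 + p 6 = 0)
    (p5 : p 4 + p 7 + p 8 + p 9 = 1) (p6 : p 3 + p 5 + p 10 + p 11 = 1)
    (p7 : p 4 + p 6 + p 12 + p 13 = 1) (p8 : p 5 + p 7 + p 14 + p 15 = 1)
    (q0 : q 0 + q 8 + q 9 = 1) (q1 : q 0 + q 1 + q 10 + q 11 = 1)
    (q2 : q 1 + q 2 + q 12 + q 13 = 1) (q3 : q 2 + q 14 + q 15 = 1) (q4 : q 3 + q 6 = 0)
    (q5 : q 4 + q 7 + q 8 + q 9 = 1) (q6 : q 3 + q 5 + q 10 + q 11 = 1)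
    (q7 : q 4 + q 6 + q 12 + q 13 = 1) (q8 : q 5 + q 7 + q 14 + q 15 = 1)
    (h : ∀ e, p e = 0 → q e = 0 → x (lA e) ≠ x (lB e)) : False := by
  by_cases hpq : p 0 = 0 ∧ q 0 = 0
  · have h3 : x 4 ≠ x 6 := h 3 (by omega) (by omega)
    have h5 : x 6 ≠ x 8 := h 5 (by omega) (by omega)
    have h7 : x 8 ≠ x 5 := h 7 (by omega) (by omega)
    have h4 : x 5 ≠ x 7 := h 4 (by omega) (by omega)
    have h6 : x 7 ≠ x 4 := h 6 (by omega) (by omega)
    exact five _ _ _ _ _ h3 h5 h7 h4 h6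
  · have h1 : x 1 ≠ x 2 := h 1 (by omega) (by omega)
    have h6 : x 7 ≠ x 4 := h 6 (by omega) (by omega)
    have h3 : x 4 ≠ x 6 := h 3 (by omega) (by omega)
    have h12 : x 2 ≠ x 7 := by
      by_cases hc : p 12 = 0 ∧ q 12 = 0
      · exact h 12 hc.1 hc.2
      · exact h 13 (by omega) (by omega)
    have h10 : x 1 ≠ x 6 := by
      by_cases hc : p 10 = 0 ∧ q 10 = 0
      · exact h 10 hc.1 hc.2
      · exact h 11 (by omega) (by omega)
    exact five _ _ _ _ _ h1 h12 h6 h3 h10.symm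

/-- the indicator function of a perfect matching -/
noncomputable def ind (N : Set GE) (e : GE) : ℕ := by
  classical
  exact if e ∈ N then 1 else 0

theorem ind_zero {N : Set GE} {e : GE} (h : ind N e = 0) : e ∉ N := by
  intro h'
  unfold ind at h
  rw [if_pos h'] at h
  exact one_ne_zero h

theorem ind_eq {N : Set GE} (hN : GG.IsPerfectMatching N) (v : GV) :
    ind N (inc v 0) + ind N (inc v 1) + ind N (inc v 2) + ind N (inc v 3) = 1 := by
  classical
  obtain ⟨e0, ⟨he0, hv0⟩, hu⟩ := hN v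
  obtain ⟨j, rfl⟩ := (mem_iff _ _).mp hv0
  have h1 : ∀ j', ind N (inc v j') = if j' = j then 1 else 0 := by
    intro j'
    unfold ind
    by_cases hj : j' = j
    · rw [if_pos hj, hj, if_pos he0]
    · rw [if_neg hj, if_neg]
      intro h'
      exact hj (inc_inj v (hu _ ⟨h', (mem_iff _ _).mpr ⟨j', rfl⟩⟩))
  rw [h1, h1, h1, h1]
  fin_cases j <;> rfl

theorem core (P Q : Set GE) (hP : GG.IsPerfectMatching P) (hQ : GG.IsPerfectMatching Q) :
    ¬ (GG.rest (P ∪ Q)).IsBipartite := by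
  classical
  rintro ⟨col⟩
  set x : GV → Bool := fun v => decide (col v = 0) with hx
  have hcol : ∀ e : GE, ind P e = 0 → ind Q e = 0 → x (eA e) ≠ x (eB e) := by
    intro e h1 h2 he
    have hadj : (GG.rest (P ∪ Q)).Adj (eA e) (eB e) :=
      ⟨e, fun h => h.elim (ind_zero h1) (ind_zero h2), rfl⟩
    have hv := col.valid hadj
    apply hv
    simp only [hx, decide_eq_decide] at he
    generalize col (eA e) = a at *
    generalize col (eB e) = b at *
    fin_cases a <;> fin_cases b <;> simp_all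
  have hp := ind_eq hP
  have hq := ind_eq hQ
  generalize ind P = p at *
  generalize ind Q = q at *
  -- the equations at the vertices of the gadgets
  have key : ∀ r : GE → ℕ, (∀ v, r (inc v 0) + r (inc v 1) + r (inc v 2) + r (inc v 3) = 1) →
      ∀ g : Fin 6,
      (r (.inl (g, 0)) + r (.inl (g, 8)) + r (.inl (g, 9)) + r (.inr (aE g)) = 1) ∧
      (r (.inl (g, 0)) + r (.inl (g, 1)) + r (.inl (g, 10)) + r (.inl (g, 11)) = 1) ∧
      (r (.inl (g, 1)) + r (.inl (g, 2)) + r (.inl (g, 12)) + r (.inl (g, 13)) = 1) ∧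
      (r (.inl (g, 2)) + r (.inl (g, 14)) + r (.inl (g, 15)) + r (.inr (cE g)) = 1) ∧
      (r (.inl (g, 3)) + r (.inl (g, 6)) + r (.inr (mE g)) + r (.inr (nE g)) = 1) ∧
      (r (.inl (g, 4)) + r (.inl (g, 7)) + r (.inl (g, 8)) + r (.inl (g, 9)) = 1) ∧
      (r (.inl (g, 3)) + r (.inl (g, 5)) + r (.inl (g, 10)) + r (.inl (g, 11)) = 1) ∧
      (r (.inl (g, 4)) + r (.inl (g, 6)) + r (.inl (g, 12)) + r (.inl (g, 13)) = 1) ∧
      (r (.inl (g, 5)) + r (.inl (g, 7)) + r (.inl (g, 14)) + r (.inl (g, 15)) = 1) := by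
    intro r hr g
    exact ⟨hr (.inl (g, 0)), hr (.inl (g, 1)), hr (.inl (g, 2)), hr (.inl (g, 3)),
      hr (.inl (g, 4)), hr (.inl (g, 5)), hr (.inl (g, 6)), hr (.inl (g, 7)), hr (.inl (g, 8))⟩
  -- crossing numbers
  have par : ∀ r : GE → ℕ, (∀ v, r (inc v 0) + r (inc v 1) + r (inc v 2) + r (inc v 3) = 1) →
      ∀ g : Fin 6, (r (.inr (aE g)) + r (.inr (cE g)) + (r (.inr (mE g)) + r (.inr (nE g)))) % 2 = 1
        ∧ r (.inr (mE g)) + r (.inr (nE g)) ≤ 1 := by
    intro r hr g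
    obtain ⟨h0, h1, h2, h3, h4, h5, h6, h7, h8⟩ := key r hr g
    omega
  have dd : ∀ g : Fin 6, ¬ (p (.inr (aE g)) + p (.inr (cE g)) = 0 ∧
      q (.inr (aE g)) + q (.inr (cE g)) = 0) := by
    rintro g ⟨e1, e2⟩
    obtain ⟨a0, a1, a2, a3, a4, a5, a6, a7, a8⟩ := key p hp g
    obtain ⟨b0, b1, b2, b3, b4, b5, b6, b7, b8⟩ := key q hq g
    obtain ⟨c1, c2⟩ := par p hp g
    obtain ⟨d1, d2⟩ := par q hq g
    exact gadget (fun e => p (.inl (g, e))) (fun e => q (.inl (g, e)))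
      (fun u => x (.inl (g, u)))
      (by omega) (by omega) (by omega)
      (by omega) (by omega) (by omega)
      (by omega) (by omega) (by omega)
      (by omega) (by omega) (by omega)
      (by omega) (by omega) (by omega)
      (by omega) (by omega) (by omega)
      (fun e h1 h2 => hcol (.inl (g, e)) h1 h2)
  have hubs : ∀ r : GE → ℕ, (∀ v, r (inc v 0) + r (inc v 1) + r (inc v 2) + r (inc v 3) = 1) →
      (r (.inr 0) + r (.inr 1) + r (.inr 6) + r (.inr 7) = 1) ∧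
      (r (.inr 2) + r (.inr 3) + r (.inr 8) + r (.inr 9) = 1) ∧
      (r (.inr 4) + r (.inr 5) + r (.inr 10) + r (.inr 11) = 1) := fun r hr =>
    ⟨hr (.inr 0), hr (.inr 1), hr (.inr 2)⟩
  obtain ⟨hp0, hp1, hp2⟩ := hubs p hp
  obtain ⟨hq0, hq1, hq2⟩ := hubs q hq
  have d0 : ¬ (p (.inr 0) + p (.inr 1) = 0 ∧ q (.inr 0) + q (.inr 1) = 0) := dd 0
  have d1 : ¬ (p (.inr 2) + p (.inr 3) = 0 ∧ q (.inr 2) + q (.inr 3) = 0) := dd 1
  have d2 : ¬ (p (.inr 4) + p (.inr 5) = 0 ∧ q (.inr 4) + q (.inr 5) = 0) := dd 2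
  have d3 : ¬ (p (.inr 6) + p (.inr 7) = 0 ∧ q (.inr 6) + q (.inr 7) = 0) := dd 3
  have d4 : ¬ (p (.inr 8) + p (.inr 9) = 0 ∧ q (.inr 8) + q (.inr 9) = 0) := dd 4
  have d5 : ¬ (p (.inr 10) + p (.inr 11) = 0 ∧ q (.inr 10) + q (.inr 11) = 0) := dd 5
  have s0 : (p (.inr 0) + p (.inr 1) + (p (.inr 12) + p (.inr 14))) % 2 = 1 ∧
    p (.inr 12) + p (.inr 14) ≤ 1 := par p hp 0
  have s1 : (p (.inr 2) + p (.inr 3) + (p (.inr 12) + p (.inr 13))) % 2 = 1 ∧
    p (.inr 12) + p (.inr 13) ≤ 1 := par p hp 1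
  have s2 : (p (.inr 4) + p (.inr 5) + (p (.inr 13) + p (.inr 14))) % 2 = 1 ∧
    p (.inr 13) + p (.inr 14) ≤ 1 := par p hp 2
  have t0 : (q (.inr 0) + q (.inr 1) + (q (.inr 12) + q (.inr 14))) % 2 = 1 ∧
    q (.inr 12) + q (.inr 14) ≤ 1 := par q hq 0
  have t1 : (q (.inr 2) + q (.inr 3) + (q (.inr 12) + q (.inr 13))) % 2 = 1 ∧
    q (.inr 12) + q (.inr 13) ≤ 1 := par q hq 1
  have t2 : (q (.inr 4) + q (.inr 5) + (q (.inr 13) + q (.inr 14))) % 2 = 1 ∧
    q (.inr 13) + q (.inr 14) ≤ 1 := par q hq 2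
  clear hubs dd par key hcol hp hq
  omega

theorem rest_mono {F F' : Set GE} (h : F ⊆ F') (hb : (GG.rest F).IsBipartite) :
    (GG.rest F').IsBipartite := by
  obtain ⟨col⟩ := hb
  refine ⟨SimpleGraph.Coloring.mk (fun v => col v) ?_⟩
  rintro u v ⟨e, he, h'⟩
  exact col.valid ⟨e, fun h'' => he (h h''), h'⟩

/-- **`t(4) ≥ 3`**: there is a `4`-graph in which the removal of two perfect matchings never leaves a
bipartite graph. -/
theorem result : (3 : ℕ∞) ≤ tNum 4 := by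
  unfold tNum
  refine le_iInf₂ fun t ht => ?_
  obtain ⟨M, hM, hb⟩ := ht GV GE GG isRGraph
  by_contra hlt
  have h3 : t < 3 := by
    rw [not_le] at hlt
    exact_mod_cast hlt
  have hex : ∃ P Q : Set GE, GG.IsPerfectMatching P ∧ GG.IsPerfectMatching Q ∧
      (⋃ i, M i) ⊆ P ∪ Q := by
    interval_cases t
    · exact ⟨NK 0, NK 0, NK_pm 0, NK_pm 0, Set.iUnion_subset fun i => i.elim0⟩
    · refine ⟨M 0, M 0, hM 0, hM 0, Set.iUnion_subset fun i => ?_⟩
      fin_cases i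
      exact Set.subset_union_left
    · refine ⟨M 0, M 1, hM 0, hM 1, Set.iUnion_subset fun i => ?_⟩
      fin_cases i
      · exact Set.subset_union_left
      · exact Set.subset_union_right
  obtain ⟨P, Q, hP, hQ, hsub⟩ := hex
  exact core P Q hP hQ (rest_mono hsub hb)

end Pool.Agent.Results.MP_ba72f5_co.FourGraphs
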