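import Mathlib

/-!
# MP_ba72f5_co: at least `⌊2r/3⌋` perfect matchings are needed

For every `r ≥ 3` we exhibit an `r`-graph `G` (the Petersen graph with `⌊r/3⌋` or `⌊r/3⌋ + 1` copies
of each edge) such that for all perfect matchings `M₁, …, M_t` of `G` with `t < ⌊2r/3⌋` the graph
`G - (M₁ ∪ … ∪ M_t)` is not bipartite. So `t(r) ≥ ⌊2r/3⌋`; in particular `t(r)` is unbounded.

The reason: for every 2-colouring of the vertices of the Petersen graph there are two monochromatic
edges which do not lie in a common perfect matching.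
-/

set_option autoImplicit false

namespace Pool.Agent.Results.MP_ba72f5_co.TwoThirdsLowerBound

/-- A loopless multigraph with vertex set `V` and edge set `E`. -/
structure MGraph (V E : Type) where
  /-- the two ends of an edge -/
  ends : E → Sym2 V
  loopless : ∀ e, ¬ (ends e).IsDiag

namespace MGraph

variable {V E : Type} (G : MGraph V E)

/-- The number of edges at a vertex. -/
noncomputable def degree (v : V) : ℕ := {e : E | v ∈ G.ends e}.ncard

/-- The edges with exactly one end in `X`. -/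
def boundary (X : Set V) : Set E := {e | ∃ u v, G.ends e = s(u, v) ∧ u ∈ X ∧ v ∉ X}

/-- `r`-graphs: `r`-regular, and at least `r` edges leave every vertex set of odd cardinality. -/
def IsRGraph (r : ℕ) : Prop :=
  (∀ v, G.degree v = r) ∧ ∀ X : Set V, Odd X.ncard → r ≤ (G.boundary X).ncard

/-- Perfect matchings, as sets of edges: every vertex is an end of exactly one edge. -/
def IsPerfectMatching (M : Set E) : Prop := ∀ v, ∃! e, e ∈ M ∧ v ∈ G.ends e

/-- The simple graph underlying the graph `G - F` (all vertices, the edges outside `F`). -/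
def rest (F : Set E) : SimpleGraph V where
  Adj u v := ∃ e, e ∉ F ∧ G.ends e = s(u, v)
  symm := ⟨fun u v ⟨e, he, h⟩ => ⟨e, he, by rw [h, Sym2.eq_swap]⟩⟩
  loopless := ⟨fun u ⟨e, _, h⟩ => G.loopless e (by rw [h]; exact rfl)⟩

end MGraph

/-- Each finite `r`-graph has `t` perfect matchings whose removal leaves a bipartite graph. -/
def Suffices (r t : ℕ) : Prop :=
  ∀ (V E : Type) [Fintype V] [Fintype E] (G : MGraph V E), G.IsRGraph r →
    ∃ M : Fin t → Set E, (∀ i, G.IsPerfectMatching (M i)) ∧ (G.rest (⋃ i, M i)).IsBipartite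

/-- The number `t(r)` of the problem (`⊤` if there is no such integer). -/
noncomputable def tNum (r : ℕ) : ℕ∞ := ⨅ (t : ℕ) (_ : Suffices r t), (t : ℕ∞)

/-! ## The Petersen graph -/

/-- first ends -/
def A : Fin 15 → Fin 10 := ![0, 1, 2, 3, 4, 5, 6, 7, 8, 9, 0, 1, 2, 3, 4]
/-- second ends -/
def B : Fin 15 → Fin 10 := ![1, 2, 3, 4, 0, 7, 8, 9, 5, 6, 5, 6, 7, 8, 9]

theorem A_ne_B : ∀ e, A e ≠ B e := by decide

/-- Multiplicities: `k` copies, and one more for the five spokes if `j = 1`, one more for the ten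
other edges if `j = 2`. -/
def w (k j : ℕ) (e : Fin 15) : ℕ :=
  k + (if 10 ≤ e.val then (if j = 1 then 1 else 0) else (if j = 2 then 1 else 0))

/-- The pairs of edges which are in no common perfect matching. -/
def pairs : List (Fin 15 × Fin 15) :=
  [(0, 1), (0, 4), (0, 7), (0, 10), (0, 11), (0, 13), (1, 2), (1, 8), (1, 11), (1, 12), (1, 14),
   (2, 3), (2, 9), (2, 10), (2, 12), (2, 13), (3, 4), (3, 5), (3, 11), (3, 13), (3, 14), (4, 6),
   (4, 10), (4, 12), (4, 14), (5, 7), (5, 8), (5, 10), (5, 11), (5, 12), (6, 8), (6, 9), (6, 11),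
   (6, 12), (6, 13), (7, 9), (7, 12), (7, 13), (7, 14), (8, 10), (8, 13), (8, 14), (9, 10),
   (9, 11), (9, 14)]

/-- A function from ten bits. -/
def vec (x0 x1 x2 x3 x4 x5 x6 x7 x8 x9 : Bool) : Fin 10 → Bool :=
  ![x0, x1, x2, x3, x4, x5, x6, x7, x8, x9]

theorem vec_eta (x : Fin 10 → Bool) :
    x = vec (x 0) (x 1) (x 2) (x 3) (x 4) (x 5) (x 6) (x 7) (x 8) (x 9) := by
  funext i
  fin_cases i <;> rfl

theorem forall_vec {P : (Fin 10 → Bool) → Prop}
    (h : ∀ x0 x1 x2 x3 x4 x5 x6 x7 x8 x9, P (vec x0 x1 x2 x3 x4 x5 x6 x7 x8 x9)) :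
    ∀ x, P x := by
  intro x
  rw [vec_eta x]
  exact h _ _ _ _ _ _ _ _ _ _

/-- monochromatic -/
def mono (x : Fin 10 → Bool) (e : Fin 15) : Bool := x (A e) == x (B e)

theorem good : ∀ x : Fin 10 → Bool, (pairs.any fun p => mono x p.1 && mono x p.2) = true := by
  apply forall_vec
  decide

set_option maxRecDepth 10000 in
theorem pairs_spoke : ∀ p ∈ pairs, ¬ (10 ≤ p.1.val ∧ 10 ≤ p.2.val) := by decide

/-- the number of cut edges among the spokes -/
def c1 (x : Fin 10 → Bool) : ℕ :=
  ∑ e : Fin 15, if mono x e then 0 else (if 10 ≤ e.val then 1 else 0)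

/-- the number of cut edges among the others -/
def c2 (x : Fin 10 → Bool) : ℕ :=
  ∑ e : Fin 15, if mono x e then 0 else (if 10 ≤ e.val then 0 else 1)

/-- the number of ones -/
def ones (x : Fin 10 → Bool) : ℕ := ∑ i, if x i then 1 else 0

theorem cut : ∀ x : Fin 10 → Bool, ones x % 2 = 1 →
    1 ≤ c1 x ∧ 3 ≤ c1 x + c2 x ∧ (2 ≤ c2 x ∨ 5 ≤ c1 x + c2 x) := by
  apply forall_vec
  decide

theorem deg3 : ∀ v : Fin 10, (∑ e : Fin 15, if v = A e ∨ v = B e then 1 else 0) = 3 := by decide

theorem deg_spoke : ∀ v : Fin 10, (∑ e : Fin 15, if v = A e ∨ v = B e then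
    (if 10 ≤ e.val then 1 else 0) else 0) = 1 := by decide

theorem deg_other : ∀ v : Fin 10, (∑ e : Fin 15, if v = A e ∨ v = B e then
    (if 10 ≤ e.val then 0 else 1) else 0) = 2 := by decide

/-- The Petersen graph with multiplicities `w k j`. -/
def PG (k j : ℕ) : MGraph (Fin 10) (Σ e : Fin 15, Fin (w k j e)) where
  ends p := s(A p.1, B p.1)
  loopless p := by simpa using A_ne_B p.1

theorem mem_ends {k j : ℕ} (v : Fin 10) (p : Σ e : Fin 15, Fin (w k j e)) :
    v ∈ (PG k j).ends p ↔ v = A p.1 ∨ v = B p.1 := by simp [PG]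

theorem ncard_fiber (k j : ℕ) (Q : Fin 15 → Prop) [DecidablePred Q] :
    {p : Σ e : Fin 15, Fin (w k j e) | Q p.1}.ncard = ∑ e, if Q e then w k j e else 0 := by
  classical
  have h : {p : Σ e : Fin 15, Fin (w k j e) | Q p.1} =
      ((Finset.univ.filter fun p : Σ e : Fin 15, Fin (w k j e) => Q p.1 :
        Finset (Σ e : Fin 15, Fin (w k j e))) : Set (Σ e : Fin 15, Fin (w k j e))) := by
    ext; simp
  rw [h, Set.ncard_coe_finset, Finset.card_filter, ← Finset.univ_sigma_univ, Finset.sum_sigma]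
  apply Finset.sum_congr rfl
  intro e _
  by_cases h : Q e <;> simp [h]

theorem sum_w (k j : ℕ) (Q : Fin 15 → Prop) [DecidablePred Q] :
    (∑ e, if Q e then w k j e else 0) =
      k * ((∑ e : Fin 15, if Q e then (if 10 ≤ e.val then 1 else 0) else 0) +
        (∑ e : Fin 15, if Q e then (if 10 ≤ e.val then 0 else 1) else 0)) +
      (if j = 1 then (∑ e : Fin 15, if Q e then (if 10 ≤ e.val then 1 else 0) else 0) else 0) +
      (if j = 2 then (∑ e : Fin 15, if Q e then (if 10 ≤ e.val then 0 else 1) else 0) else 0) := by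
  have h1 : (if j = 1 then (∑ e : Fin 15, if Q e then (if 10 ≤ e.val then 1 else 0) else 0)
      else 0) = (if j = 1 then 1 else 0) *
        (∑ e : Fin 15, if Q e then (if 10 ≤ e.val then 1 else 0) else 0) := by
    split_ifs <;> simp
  have h2 : (if j = 2 then (∑ e : Fin 15, if Q e then (if 10 ≤ e.val then 0 else 1) else 0)
      else 0) = (if j = 2 then 1 else 0) *
        (∑ e : Fin 15, if Q e then (if 10 ≤ e.val then 0 else 1) else 0) := by
    split_ifs <;> simp
  rw [h1, h2, ← Finset.sum_add_distrib, Finset.mul_sum, Finset.mul_sum, Finset.mul_sum,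
    ← Finset.sum_add_distrib, ← Finset.sum_add_distrib]
  apply Finset.sum_congr rfl
  intro e _
  unfold w
  by_cases hq : Q e <;> by_cases he : 10 ≤ e.val <;> by_cases hj1 : j = 1 <;>
    by_cases hj2 : j = 2 <;> simp [hq, he, hj1, hj2]

theorem isRGraph (k j : ℕ) (hk : 1 ≤ k) (hj : j ≤ 2) : (PG k j).IsRGraph (3 * k + j) := by
  classical
  constructor
  · intro v
    unfold MGraph.degree
    simp_rw [mem_ends]
    rw [ncard_fiber k j (fun e => v = A e ∨ v = B e), sum_w, deg_spoke, deg_other]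
    interval_cases j <;> simp <;> ring
  · intro X hX
    set x : Fin 10 → Bool := fun i => decide (i ∈ X) with hx
    have hb : (PG k j).boundary X = {p | ¬ (mono x p.1 = true)} := by
      ext p
      simp only [MGraph.boundary, PG, Set.mem_ofPred_eq, mono, hx, beq_iff_eq, decide_eq_decide]
      constructor
      · rintro ⟨u, v, h, hu, hv⟩
        rw [Sym2.eq_iff] at h
        rcases h with ⟨h1, h2⟩ | ⟨h1, h2⟩
        · rw [h1, h2]; tauto
        · rw [h1, h2]; tauto
      · intro h
        by_cases hA : A p.1 ∈ X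
        · exact ⟨A p.1, B p.1, rfl, hA, fun hB => h ⟨fun _ => hB, fun _ => hA⟩⟩
        · refine ⟨B p.1, A p.1, Sym2.eq_swap, ?_, hA⟩
          by_contra hB
          exact h ⟨fun h' => absurd h' hA, fun h' => absurd h' hB⟩
    have hodd : ones x % 2 = 1 := by
      have : ones x = X.ncard := by
        unfold ones
        rw [Set.ncard_eq_toFinset_card', ← Finset.card_filter]
        congr 1
        ext i
        simp [hx]
      rw [this]
      exact Nat.odd_iff.mp hX
    obtain ⟨g1, g2, g3⟩ := cut x hodd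
    rw [hb, ncard_fiber k j (fun e => ¬ (mono x e = true)), sum_w]
    have e1 : (∑ e : Fin 15, if ¬ (mono x e = true) then (if 10 ≤ e.val then 1 else 0) else 0)
        = c1 x := by
      unfold c1
      apply Finset.sum_congr rfl
      intro e _
      by_cases h : mono x e = true <;> simp [h]
    have e2 : (∑ e : Fin 15, if ¬ (mono x e = true) then (if 10 ≤ e.val then 0 else 1) else 0)
        = c2 x := by
      unfold c2
      apply Finset.sum_congr rfl
      intro e _
      by_cases h : mono x e = true <;> simp [h]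
    rw [e1, e2]
    have g4 : k * 3 ≤ k * (c1 x + c2 x) := Nat.mul_le_mul_left k g2
    interval_cases j
    · simp; omega
    · simp; omega
    · simp
      rcases g3 with g3 | g3
      · omega
      · have g5 : k * 5 ≤ k * (c1 x + c2 x) := Nat.mul_le_mul_left k g3
        omega

/-- A perfect matching of `PG k j` does not use copies of both edges of a pair of `pairs`. -/
theorem pm_pairs {k j : ℕ} {N : Set (Σ e : Fin 15, Fin (w k j e))}
    (hN : (PG k j).IsPerfectMatching N) (p : Fin 15 × Fin 15) (hp : p ∈ pairs) :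
    ¬ ((∃ c, (⟨p.1, c⟩ : Σ e : Fin 15, Fin (w k j e)) ∈ N) ∧
      (∃ c, (⟨p.2, c⟩ : Σ e : Fin 15, Fin (w k j e)) ∈ N)) := by
  classical
  set n : Fin 15 → ℕ :=
    fun e => if ∃ c, (⟨e, c⟩ : Σ e : Fin 15, Fin (w k j e)) ∈ N then 1 else 0 with hn
  have key : ∀ (v : Fin 10) (a b c : Fin 15),
      (∀ e, (v = A e ∨ v = B e) ↔ (e = a ∨ e = b ∨ e = c)) → a ≠ b → a ≠ c → b ≠ c →
      n a + n b + n c = 1 := by
    intro v a b c h hab hac hbc
    obtain ⟨q, ⟨hq, hv⟩, huniq⟩ := hN v
    have h1 : ∀ e, (e = a ∨ e = b ∨ e = c) → n e = if e = q.1 then 1 else 0 := by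
      intro e he
      by_cases hep : e = q.1
      · have h' : ∃ c, (⟨e, c⟩ : Σ e : Fin 15, Fin (w k j e)) ∈ N := by
          subst hep
          exact ⟨q.2, hq⟩
        rw [if_pos hep, hn]
        exact if_pos h'
      · have h' : ¬ ∃ c, (⟨e, c⟩ : Σ e : Fin 15, Fin (w k j e)) ∈ N := by
          rintro ⟨c', hc'⟩
          exact hep (congrArg Sigma.fst
            (huniq ⟨e, c'⟩ ⟨hc', (mem_ends _ _).mpr ((h e).mpr he)⟩))
        rw [if_neg hep, hn]
        exact if_neg h'
    have h2 := (h q.1).mp ((mem_ends _ _).mp hv)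
    rw [h1 a (Or.inl rfl), h1 b (Or.inr (Or.inl rfl)), h1 c (Or.inr (Or.inr rfl))]
    rcases h2 with h2 | h2 | h2
    · rw [h2, if_pos rfl, if_neg hab.symm, if_neg hac.symm]
    · rw [h2, if_neg hab, if_pos rfl, if_neg hbc.symm]
    · rw [h2, if_neg hac, if_neg hbc, if_pos rfl]
  have h0 := key 0 0 4 10 (by decide) (by decide) (by decide) (by decide)
  have h1 := key 1 0 1 11 (by decide) (by decide) (by decide) (by decide)
  have h2 := key 2 1 2 12 (by decide) (by decide) (by decide) (by decide)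
  have h3 := key 3 2 3 13 (by decide) (by decide) (by decide) (by decide)
  have h4 := key 4 3 4 14 (by decide) (by decide) (by decide) (by decide)
  have h5 := key 5 5 8 10 (by decide) (by decide) (by decide) (by decide)
  have h6 := key 6 6 9 11 (by decide) (by decide) (by decide) (by decide)
  have h7 := key 7 5 7 12 (by decide) (by decide) (by decide) (by decide)
  have h8 := key 8 6 8 13 (by decide) (by decide) (by decide) (by decide)
  have h9 := key 9 7 9 14 (by decide) (by decide) (by decide) (by decide)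
  rintro ⟨he, hf⟩
  have g1 : n p.1 = 1 := if_pos he
  have g2 : n p.2 = 1 := if_pos hf
  clear_value n
  clear hn key he hf hN
  simp only [pairs, List.mem_cons, List.not_mem_nil, or_false] at hp
  casesm* _ ∨ _ <;> subst hp <;> simp only at g1 g2 <;> omega

theorem count {k j t : ℕ} (M : Fin t → Set (Σ e : Fin 15, Fin (w k j e)))
    (hM : ∀ i, (PG k j).IsPerfectMatching (M i)) (e : Fin 15)
    (hcov : ∀ c, ∃ i, (⟨e, c⟩ : Σ e : Fin 15, Fin (w k j e)) ∈ M i) (F : Finset (Fin t))
    (hF : ∀ i c, (⟨e, c⟩ : Σ e : Fin 15, Fin (w k j e)) ∈ M i → i ∈ F) :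
    w k j e ≤ F.card := by
  classical
  choose g hg using hcov
  have hinj : Function.Injective g := by
    intro c c' h
    have h1 := hg c
    have h2 := hg c'
    rw [← h] at h2
    obtain ⟨p, hp, hu⟩ := hM (g c) (A e)
    have e1 := hu ⟨e, c⟩ ⟨h1, (mem_ends _ _).mpr (Or.inl rfl)⟩
    have e2 := hu ⟨e, c'⟩ ⟨h2, (mem_ends _ _).mpr (Or.inl rfl)⟩
    have e3 := e1.trans e2.symm
    simpa using e3
  have h3 : (Finset.univ.image g).card = w k j e := by
    rw [Finset.card_image_of_injective _ hinj, Finset.card_univ, Fintype.card_fin]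
  rw [← h3]
  apply Finset.card_le_card
  intro i hi
  rw [Finset.mem_image] at hi
  obtain ⟨c, _, rfl⟩ := hi
  exact hF _ _ (hg c)

theorem lower (k j t : ℕ) (hj : j ≤ 2) (M : Fin t → Set (Σ e : Fin 15, Fin (w k j e)))
    (hM : ∀ i, (PG k j).IsPerfectMatching (M i))
    (hbip : ((PG k j).rest (⋃ i, M i)).IsBipartite) : 2 * (3 * k + j) / 3 ≤ t := by
  classical
  obtain ⟨col⟩ := hbip
  set x : Fin 10 → Bool := fun v => decide (col v = 0) with hx
  have hg := good x
  rw [List.any_eq_true] at hg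
  obtain ⟨p, hp, hmono⟩ := hg
  rw [Bool.and_eq_true] at hmono
  have cov : ∀ e, mono x e = true → ∀ c,
      ∃ i, (⟨e, c⟩ : Σ e : Fin 15, Fin (w k j e)) ∈ M i := by
    intro e he c
    by_contra hne
    have hadj : ((PG k j).rest (⋃ i, M i)).Adj (A e) (B e) :=
      ⟨⟨e, c⟩, by simpa using hne, rfl⟩
    have hv := col.valid hadj
    apply hv
    simp only [mono, hx, beq_iff_eq, decide_eq_decide] at he
    generalize col (A e) = a at *
    generalize col (B e) = b at *
    fin_cases a <;> fin_cases b <;> simp_all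
  set F1 : Finset (Fin t) := Finset.univ.filter fun i =>
    ∃ c, (⟨p.1, c⟩ : Σ e : Fin 15, Fin (w k j e)) ∈ M i with hF1
  set F2 : Finset (Fin t) := Finset.univ.filter fun i =>
    ∃ c, (⟨p.2, c⟩ : Σ e : Fin 15, Fin (w k j e)) ∈ M i with hF2
  have c1' : w k j p.1 ≤ F1.card := count M hM p.1 (cov p.1 hmono.1) F1
    (fun i c h => by rw [hF1, Finset.mem_filter]; exact ⟨Finset.mem_univ _, c, h⟩)
  have c2' : w k j p.2 ≤ F2.card := count M hM p.2 (cov p.2 hmono.2) F2
    (fun i c h => by rw [hF2, Finset.mem_filter]; exact ⟨Finset.mem_univ _, c, h⟩)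
  have hdisj : Disjoint F1 F2 := by
    rw [Finset.disjoint_left]
    intro i h1 h2
    rw [hF1, Finset.mem_filter] at h1
    rw [hF2, Finset.mem_filter] at h2
    exact pm_pairs (hM i) p hp ⟨h1.2, h2.2⟩
  have hcard : F1.card + F2.card ≤ t := by
    rw [← Finset.card_union_of_disjoint hdisj]
    calc (F1 ∪ F2).card ≤ (Finset.univ : Finset (Fin t)).card :=
          Finset.card_le_card (Finset.subset_univ _)
      _ = t := by rw [Finset.card_univ, Fintype.card_fin]
  have hsp := pairs_spoke p hp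
  unfold w at c1' c2'
  generalize F1.card = m1 at c1' hcard
  generalize F2.card = m2 at c2' hcard
  split_ifs at c1' c2' <;> omega

/-- **`t(r) ≥ ⌊2r/3⌋` for every `r ≥ 3`.** -/
theorem result (r : ℕ) (hr : 3 ≤ r) : ((2 * r / 3 : ℕ) : ℕ∞) ≤ tNum r := by
  unfold tNum
  refine le_iInf₂ fun t ht => ?_
  have h1 : 3 * (r / 3) + r % 3 = r := Nat.div_add_mod r 3
  have h2 : r % 3 ≤ 2 := by omega
  have h3 : 1 ≤ r / 3 := by omega
  obtain ⟨M, hM, hb⟩ := ht (Fin 10) (Σ e : Fin 15, Fin (w (r / 3) (r % 3) e))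
    (PG (r / 3) (r % 3)) (by
      have := isRGraph (r / 3) (r % 3) h3 h2
      rwa [h1] at this)
  have h4 := lower (r / 3) (r % 3) t h2 M hM hb
  rw [h1] at h4
  exact_mod_cast h4

end Pool.Agent.Results.MP_ba72f5_co.TwoThirdsLowerBound
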